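import Pool.Agent.Y784.CB.CR
import Pool.Agent.Y472.E.Defs

/-!
# Critical points, evenness in the first variables only (job CB3-E-CRE): existence
-/

set_option autoImplicit false

namespace Pool.Agent.Y784.CBE

open Finset Filter Topology Metric
open Pool.Agent.W711.HT Pool.Agent.Y472
open Pool.Agent.Y784.CB (fp_deriv Rc_open Rc_norm Rc_mono Rc_neg bx_open rs rs_ex ex_rs ex_mem
  rs_mem Bx_mono rs_update up_mem fderiv_bd lip_bd Cr cr_iff norm_coef part chain part_bd)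
open scoped Real

section

variable {L e : ℕ} {R c B p₀ : ℝ} {S : (ℕ → ℂ) → ℂ} {D : ℕ → (ℕ → ℂ) → ℂ}

theorem S_rs (hP : PotE L e R c B p₀ S D) (ψ : ℕ → ℂ) : S (ex L (rs L ψ)) = S ψ :=
  (hP.dep _ _ fun _ hi => ex_rs ψ hi).1

theorem D_rs (hP : PotE L e R c B p₀ S D) (ψ : ℕ → ℂ) (j : ℕ) : D j (ex L (rs L ψ)) = D j ψ :=
  (hP.dep _ _ fun _ hi => ex_rs ψ hi).2 j

/-- the derivatives are Lipschitz -/
theorem D_lip (hP : PotE L e R c B p₀ S D) {ψ ψ' : ℕ → ℂ} (h : ψ ∈ Bx L (R / 2))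
    (h' : ψ' ∈ Bx L (R / 2)) {l : ℕ} (hl : l < L) :
    ‖D l ψ' - D l ψ‖ ≤ 4 * B / R * ‖rs L ψ' - rs L ψ‖ := by
  have h1 := lip_bd hP.hR.1 hP.hB.le (hP.dan l hl) (fun x hx => (hP.bd _ (ex_mem hx)).2 l hl)
    (rs_mem h) (rs_mem h')
  simpa [D_rs hP] using h1

theorem S_lip (hP : PotE L e R c B p₀ S D) {ψ ψ' : ℕ → ℂ} (h : ψ ∈ Bx L (R / 2))
    (h' : ψ' ∈ Bx L (R / 2)) : ‖S ψ' - S ψ‖ ≤ 4 * B / R * ‖rs L ψ' - rs L ψ‖ := by
  have h1 := lip_bd hP.hR.1 hP.hB.le hP.an (fun x hx => (hP.bd _ (ex_mem hx)).1)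
    (rs_mem h) (rs_mem h')
  simpa [S_rs hP] using h1

/-- uniqueness and Lipschitz dependence -/
theorem crit_diff (hP : PotE L e R c B p₀ S D) {a : ℕ → ℤ} {j : ℕ} (hj : j ≤ L)
    (ha : ∀ i < j, 32 * π * B / R ≤ |(a i : ℝ)|) (ha0 : ∀ i < j, (a i : ℝ) ≠ 0) {y y' : ℕ → ℂ}
    (hy : y ∈ Bx L (R / 2)) (hy' : y' ∈ Bx L (R / 2)) (h : Cr D a j y) (h' : Cr D a j y') {δ : ℝ}
    (hδ : 0 ≤ δ) (hd : ∀ i, j ≤ i → i < L → ‖y' i - y i‖ ≤ δ) :
    ‖rs L y' - rs L y‖ ≤ δ ∧ ∀ i < j, ‖y' i - y i‖ ≤ 8 * π * B / (R * |(a i : ℝ)|) * δ := by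
  have hR := hP.hR.1
  have hB := hP.hB
  have hπ := Real.pi_pos
  set n : ℝ := ‖rs L y' - rs L y‖ with hn
  have h1 : ∀ i < j, ‖y' i - y i‖ ≤ 8 * π * B / (R * |(a i : ℝ)|) * n := by
    intro i hi
    have hiL := hi.trans_le hj
    have ha1 := ha0 i hi
    have e1 := (cr_iff ha1).1 (by simpa using h i hi)
    have e2 := (cr_iff ha1).1 (by simpa using h' i hi)
    have e3 : y' i - y i = (2 * π / (a i : ℝ)) * Complex.I * (D i y' - D i y) := by
      rw [e1, e2]; ring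
    have habs : 0 < |(a i : ℝ)| := abs_pos.2 ha1
    rw [e3, norm_mul, norm_mul, Complex.norm_I, mul_one, norm_div, norm_mul, Complex.norm_real,
      Complex.norm_real, Real.norm_eq_abs, Real.norm_eq_abs, abs_of_pos hπ, Complex.norm_ofNat]
    refine (mul_le_mul_of_nonneg_left (D_lip hP hy hy' hiL) (by positivity)).trans (le_of_eq ?_)
    rw [← hn]
    field_simp
    ring
  have h2 : ∀ i < j, ‖y' i - y i‖ ≤ 1 / 2 * n := by
    intro i hi
    refine (h1 i hi).trans (mul_le_mul_of_nonneg_right ?_ (norm_nonneg _))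
    have habs : 0 < |(a i : ℝ)| := abs_pos.2 (ha0 i hi)
    rw [div_le_iff₀ (by positivity)]
    have h3 := ha i hi
    rw [div_le_iff₀ hR] at h3
    nlinarith
  have h3 : n ≤ max δ (1 / 2 * n) := by
    rw [hn, pi_norm_le_iff_of_nonneg (le_max_of_le_left hδ)]
    intro i
    show ‖y' i - y i‖ ≤ _
    by_cases hi : i.1 < j
    · exact (h2 i hi).trans (le_max_right _ _)
    · exact (hd i (not_lt.1 hi) i.2).trans (le_max_left _ _)
  have h4 : n ≤ δ := by
    rcases le_max_iff.1 h3 with h5 | h5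
    · exact h5
    · have : 0 ≤ n := norm_nonneg _
      linarith
  refine ⟨h4, fun i hi => (h1 i hi).trans (mul_le_mul_of_nonneg_left h4 ?_)⟩
  have habs : 0 < |(a i : ℝ)| := abs_pos.2 (ha0 i hi)
  positivity

/-- uniqueness -/
theorem crit_uniq (hP : PotE L e R c B p₀ S D) {a : ℕ → ℤ} {j : ℕ} (hj : j ≤ L)
    (ha : ∀ i < j, 32 * π * B / R ≤ |(a i : ℝ)|) (ha0 : ∀ i < j, (a i : ℝ) ≠ 0) {y y' : ℕ → ℂ}
    (hy : y ∈ Bx L (R / 2)) (hy' : y' ∈ Bx L (R / 2)) (h : Cr D a j y) (h' : Cr D a j y')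
    (hd : ∀ i, j ≤ i → y' i = y i) : y' = y := by
  have h1 := (crit_diff hP hj ha ha0 hy hy' h h' le_rfl
    (fun i hi _ => by rw [hd i hi, sub_self, norm_zero])).1
  have h2 : rs L y' - rs L y = 0 := norm_le_zero_iff.1 h1
  funext i
  by_cases hi : i < L
  · have := congrFun h2 ⟨i, hi⟩
    exact sub_eq_zero.1 this
  · exact hd i (hj.trans (not_lt.1 hi))

/-- existence -/
theorem crit_ex (hP : PotE L e R c B p₀ S D) {a : ℕ → ℤ} {j : ℕ} (hj : j ≤ L)
    (ha : ∀ i < j, 32 * π * B / R ≤ |(a i : ℝ)|) (ha0 : ∀ i < j, (a i : ℝ) ≠ 0)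
    (ha2 : ∀ i < j, 2 * π * (1 + B) / |(a i : ℝ)| ≤ R / 4) {ψ : ℕ → ℂ} (hψ : ψ ∈ Bx L (R / 2)) :
    ∃ y : ℕ → ℂ, (∀ i, j ≤ i → y i = ψ i) ∧ y ∈ Bx L (R / 2) ∧ Cr D a j y := by
  classical
  have hR := hP.hR.1
  have hB := hP.hB
  have hπ := Real.pi_pos
  set s : Set (Fin L → ℂ) := {x | ∀ i : Fin L, (i.1 < j → ‖x i‖ ≤ R / 4) ∧
    (j ≤ i.1 → x i = ψ i)} with hs
  have hsc : IsClosed s := by
    have : s = ⋂ i : Fin L, ({x | i.1 < j → ‖x i‖ ≤ R / 4} ∩ {x | j ≤ i.1 → x i = ψ i}) := by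
      ext x
      simp [hs]
    rw [this]
    refine isClosed_iInter fun i => IsClosed.inter ?_ ?_
    · by_cases hi : i.1 < j
      · simp only [hi, true_imp_iff]
        exact isClosed_le (continuous_apply i).norm continuous_const
      · simp [hi]
    · by_cases hi : j ≤ i.1
      · simp only [hi, true_imp_iff]
        exact isClosed_eq (continuous_apply i) continuous_const
      · simp [hi]
  have hsb : ∀ x ∈ s, x ∈ bx L (R / 2) := by
    intro x hx i
    by_cases hi : i.1 < j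
    · exact Rc_norm (((hx i).1 hi).trans_lt (by linarith))
    · rw [(hx i).2 (not_lt.1 hi)]
      exact hψ i i.2
  have hsb' : ∀ x ∈ s, ex L x ∈ Bx L (R / 2) := fun x hx => ex_mem (hsb x hx)
  set T : (Fin L → ℂ) → Fin L → ℂ := fun x i =>
    if i.1 < j then -(2 * π / (a i : ℝ)) * (1 - Complex.I * D i (ex L x)) else ψ i with hT
  have hmaps : Set.MapsTo T s s := by
    intro x hx i
    refine ⟨fun hi => ?_, fun hi => ?_⟩
    · simp only [hT, hi, if_true]
      rw [norm_mul, norm_neg, norm_coef]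
      have h1 : ‖1 - Complex.I * D i (ex L x)‖ ≤ 1 + B := by
        refine (norm_sub_le _ _).trans ?_
        rw [norm_mul, Complex.norm_I, one_mul, norm_one]
        have := (hP.bd _ (Bx_mono (by linarith) (hsb' x hx))).2 i i.2
        linarith
      refine (mul_le_mul_of_nonneg_left h1 (by positivity)).trans ?_
      have := ha2 i hi
      rw [div_mul_eq_mul_div]
      exact this
    · simp only [hT, not_lt.2 hi, if_false]
  have hcon : ContractingWith (1 / 2) (hmaps.restrict T s s) := by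
    refine ⟨by
      rw [← NNReal.coe_lt_coe]; norm_num, LipschitzWith.of_dist_le_mul fun x y => ?_⟩
    have hx := x.2
    have hy := y.2
    rw [Subtype.dist_eq, Subtype.dist_eq]
    show dist (T x.1) (T y.1) ≤ _
    rw [dist_pi_le_iff (by positivity)]
    intro i
    by_cases hi : i.1 < j
    · simp only [hT, hi, if_true]
      rw [dist_eq_norm]
      have e : -(2 * π / (a i : ℝ)) * (1 - Complex.I * D i (ex L x.1)) -
          -(2 * π / (a i : ℝ)) * (1 - Complex.I * D i (ex L y.1)) =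
          (2 * π / (a i : ℝ)) * Complex.I * (D i (ex L x.1) - D i (ex L y.1)) := by ring
      have e' := D_lip hP (hsb' _ hy) (hsb' _ hx) i.2
      rw [rs_ex, rs_ex] at e'
      have habs : 0 < |(a i : ℝ)| := abs_pos.2 (ha0 i hi)
      have h3 := ha i hi
      rw [div_le_iff₀ hR] at h3
      rw [e, norm_mul, norm_mul, Complex.norm_I, mul_one, norm_coef]
      calc 2 * π / |(a i : ℝ)| * ‖D i (ex L x.1) - D i (ex L y.1)‖
          ≤ 2 * π / |(a i : ℝ)| * (4 * B / R * ‖x.1 - y.1‖) :=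
            mul_le_mul_of_nonneg_left e' (by positivity)
        _ = (8 * π * B / (R * |(a i : ℝ)|)) * ‖x.1 - y.1‖ := by field_simp; ring
        _ ≤ 1 / 2 * ‖x.1 - y.1‖ := by
            refine mul_le_mul_of_nonneg_right ?_ (norm_nonneg _)
            rw [div_le_iff₀ (by positivity)]
            nlinarith
        _ = _ := by rw [dist_eq_norm]; norm_num
    · simp only [hT, hi, if_false, dist_self]
      positivity
  have hx0 : (fun i : Fin L => if i.1 < j then 0 else ψ i) ∈ s := by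
    intro i
    refine ⟨fun hi => ?_, fun hi => ?_⟩
    · simp only [hi, if_true, norm_zero]; positivity
    · simp only [not_lt.2 hi, if_false]
  obtain ⟨x, hxs, hfix, -⟩ := hcon.exists_fixedPoint' hsc.isComplete hmaps hx0 (edist_ne_top _ _)
  refine ⟨fun i => if h : i < L then x ⟨i, h⟩ else ψ i, fun i hi => ?_, fun i hi => ?_,
    fun i hi => ?_⟩
  · by_cases h : i < L
    · simp only [h, dif_pos]
      exact (hxs ⟨i, h⟩).2 hi
    · simp only [h, dif_neg, not_false_eq_true]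
  · simp only [hi, dif_pos]
    exact hsb x hxs ⟨i, hi⟩
  · have hiL := hi.trans_le hj
    set y : ℕ → ℂ := fun i => if h : i < L then x ⟨i, h⟩ else ψ i with hy
    have e1 : D i y = D i (ex L x) := by
      refine (hP.dep _ _ fun k hk => ?_).2 i
      simp [hy, ex, hk]
    have e2 : y i = x ⟨i, hiL⟩ := by simp [hy, hiL]
    have e3 : x ⟨i, hiL⟩ = T x ⟨i, hiL⟩ := congrFun hfix.symm ⟨i, hiL⟩
    have e4 : T x ⟨i, hiL⟩ = -(2 * π / (a i : ℝ)) * (1 - Complex.I * D i (ex L x)) := by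
      simp only [hT, hi, if_true]
    have e5 := (cr_iff (ha0 i hi)).2 (e3.trans e4)
    rw [e1, e2]
    simpa using e5

end

end Pool.Agent.Y784.CBE
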