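import Pool.Agent.Y784.CBE.E1

/-!
# Critical points, evenness in the first variables only (job CB3-E-CRE): symmetry, derivatives
-/

set_option autoImplicit false

namespace Pool.Agent.Y784.CBE

open Finset Filter Topology Metric
open Pool.Agent.W711.HT Pool.Agent.Y472
open Pool.Agent.Y784.CB (fp_deriv Rc_open Rc_norm Rc_mono Rc_neg bx_open rs rs_ex ex_rs ex_mem
  rs_mem Bx_mono rs_update up_mem fderiv_bd lip_bd Cr cr_iff norm_coef part chain part_bd)
open scoped Real

section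

variable {L e : ℕ} {R c B p₀ : ℝ} {S : (ℕ → ℂ) → ℂ} {D : ℕ → (ℕ → ℂ) → ℂ}

/-! ### Symmetry -/

theorem D_zero (hP : PotE L e R c B p₀ S D) {ψ : ℕ → ℂ} (hψ : ψ ∈ Bx L R) {i : ℕ} (hie : i < e)
    (h0 : ψ i = 0) : D i ψ = 0 := by
  have hi : i < L := hie.trans_le hP.he
  have h1 := hP.der ψ hψ i hi
  rw [h0] at h1
  have h2 : HasDerivAt (fun w => S (Function.update ψ i (-w))) (-D i ψ) 0 := by
    have h3 : HasDerivAt (fun w : ℂ => -w) (-1) 0 := (hasDerivAt_id (0 : ℂ)).neg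
    have h4 : HasDerivAt (fun w => S (Function.update ψ i w)) (D i ψ) (-0) := by
      rw [neg_zero]; exact h1
    have h5 := h4.comp (0 : ℂ) h3
    rw [mul_neg_one] at h5
    exact h5
  have h3 : (fun w => S (Function.update ψ i (-w))) =ᶠ[𝓝 0] fun w => S (Function.update ψ i w) := by
    have h0m : (0 : ℂ) ∈ Rc R R := by rw [← h0]; exact hψ i hi
    filter_upwards [(Rc_open R R).mem_nhds h0m] with w hw
    have h4 := hP.ev _ (up_mem hψ hw (i := i)) i hie
    simpa using h4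
  have h4 := (h2.congr_of_eventuallyEq h3.symm).unique h1
  have h5 : 2 * D i ψ = 0 := by linear_combination -h4
  simpa using h5

theorem D_ev (hP : PotE L e R c B p₀ S D) {ψ : ℕ → ℂ} (hψ : ψ ∈ Bx L R) {i l : ℕ} (hie : i < e)
    (hl : l < L) (hil : l ≠ i) : D l (Function.update ψ i (-ψ i)) = D l ψ := by
  have hi : i < L := hie.trans_le hP.he
  have h0 : Function.update ψ i (-ψ i) ∈ Bx L R := up_mem hψ (Rc_neg (hψ i hi))
  have h1 := hP.der _ h0 l hl
  have h2 := hP.der ψ hψ l hl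
  rw [Function.update_of_ne hil] at h1
  refine (h1.congr_of_eventuallyEq ?_).unique h2
  filter_upwards [(Rc_open R R).mem_nhds (hψ l hl)] with w hw
  have h4 := hP.ev _ (up_mem hψ hw (i := l)) i hie
  rw [Function.update_of_ne hil.symm] at h4
  rw [Function.update_comm hil] at h4
  exact h4.symm

theorem D_small (hP : PotE L e R c B p₀ S D) {ψ : ℕ → ℂ} (hψ : ψ ∈ Bx L (R / 2)) {i : ℕ}
    (hie : i < e) : ‖D i ψ‖ ≤ 4 * B / R * ‖ψ i‖ := by
  have hi : i < L := hie.trans_le hP.he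
  have hR := hP.hR.1
  have hB := hP.hB
  have h0 : Function.update ψ i 0 ∈ Bx L (R / 2) :=
    up_mem hψ (Rc_norm (by rw [norm_zero]; linarith))
  have h1 := D_lip hP h0 hψ hi
  rw [D_zero hP (Bx_mono (by linarith) h0) hie (by simp), sub_zero] at h1
  refine h1.trans (mul_le_mul_of_nonneg_left ?_ (by positivity))
  rw [pi_norm_le_iff_of_nonneg (norm_nonneg _)]
  intro k
  show ‖ψ k - Function.update ψ i 0 k‖ ≤ ‖ψ i‖
  by_cases hk : k.1 = i
  · rw [hk]; simp
  · rw [Function.update_of_ne hk]; simp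

/-- concavity -/
theorem D_re (hP : PotE L e R c B p₀ S D) {ψ : ℕ → ℂ} (hψ : ψ ∈ Bx L (R / 2)) {i : ℕ}
    (hie : i < e) : (D i ψ * (starRingEnd ℂ) (ψ i)).re ≤ -c * ‖ψ i‖ ^ 2 := by
  have hi : i < L := hie.trans_le hP.he
  have hR := hP.hR.1
  have hψR : ψ ∈ Bx L R := Bx_mono (by linarith) hψ
  set z : ℂ := ψ i with hz
  have hmem : ∀ t ∈ Set.Icc (0 : ℝ) 1, (t : ℂ) * z ∈ Rc R R := by
    intro t ht
    have h1 : |t| ≤ 1 := by rw [abs_of_nonneg ht.1]; exact ht.2
    have h2 := (hψR i hi).1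
    have h3 := (hψR i hi).2
    refine ⟨?_, ?_⟩
    · show |((t : ℂ) * z).re| < R
      rw [Complex.re_ofReal_mul, abs_mul]
      exact (mul_le_of_le_one_left (abs_nonneg _) h1).trans_lt h2
    · show |((t : ℂ) * z).im| < R
      rw [Complex.im_ofReal_mul, abs_mul]
      exact (mul_le_of_le_one_left (abs_nonneg _) h1).trans_lt h3
  set g : ℂ → ℂ := fun w => D i (Function.update ψ i w) with hg
  have hdep : ∀ ψ ψ' : ℕ → ℂ, (∀ i < L, ψ i = ψ' i) → D i ψ = D i ψ' := fun ψ ψ' h =>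
    (hP.dep ψ ψ' h).2 i
  have hgd : ∀ w ∈ Rc R R, HasDerivAt g (deriv g w) w ∧ (deriv g w).re ≤ -c := by
    intro w hw
    have h1 : Function.update ψ i w ∈ Bx L R := up_mem hψR hw
    have h2 := part hdep (hP.dan i hi) h1 hi
    have h3 := hP.conc _ h1 i hi
    simp only [Function.update_idem, Function.update_self] at h2 h3
    exact ⟨h2.differentiableAt.hasDerivAt, h3⟩
  -- the real function
  set F : ℝ → ℝ := fun t => (g (t * z) * (starRingEnd ℂ) z).re + c * ‖z‖ ^ 2 * t with hF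
  have hFd : ∀ t ∈ Set.Icc (0 : ℝ) 1, HasDerivAt F
      ((deriv g (t * z) * z * (starRingEnd ℂ) z).re + c * ‖z‖ ^ 2) t := by
    intro t ht
    have h1 := (hgd _ (hmem t ht)).1
    have h2 : HasDerivAt (fun s : ℂ => s * z) z (t : ℂ) := by
      simpa using (hasDerivAt_id (t : ℂ)).mul_const z
    have h3 : HasDerivAt (fun s : ℂ => g (s * z) * (starRingEnd ℂ) z)
        (deriv g (t * z) * z * (starRingEnd ℂ) z) (t : ℂ) := (h1.comp (t : ℂ) h2).mul_const _
    have h4 := h3.real_of_complex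
    have h5 : HasDerivAt (fun t : ℝ => c * ‖z‖ ^ 2 * t) (c * ‖z‖ ^ 2) t := by
      simpa using (hasDerivAt_id t).const_mul (c * ‖z‖ ^ 2)
    exact h4.add h5
  have hneg : ∀ t ∈ Set.Icc (0 : ℝ) 1,
      (deriv g (t * z) * z * (starRingEnd ℂ) z).re + c * ‖z‖ ^ 2 ≤ 0 := by
    intro t ht
    have h1 := (hgd _ (hmem t ht)).2
    have h2 : deriv g (t * z) * z * (starRingEnd ℂ) z = ((‖z‖ ^ 2 : ℝ) : ℂ) * deriv g (t * z) := by
      rw [mul_assoc, Complex.mul_conj, Complex.normSq_eq_norm_sq]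
      ring
    rw [h2, Complex.re_ofReal_mul]
    nlinarith [sq_nonneg ‖z‖]
  have hanti : AntitoneOn F (Set.Icc 0 1) := by
    refine antitoneOn_of_deriv_nonpos (convex_Icc 0 1)
      (fun t ht => (hFd t ht).continuousAt.continuousWithinAt) (fun t ht => ?_) fun t ht => ?_
    · rw [interior_Icc] at ht
      exact (hFd t ⟨ht.1.le, ht.2.le⟩).differentiableAt.differentiableWithinAt
    · rw [interior_Icc] at ht
      have ht' : t ∈ Set.Icc (0 : ℝ) 1 := ⟨ht.1.le, ht.2.le⟩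
      rw [(hFd t ht').deriv]
      exact hneg t ht'
  have h6 := hanti (show (0 : ℝ) ∈ Set.Icc 0 1 by norm_num)
    (show (1 : ℝ) ∈ Set.Icc 0 1 by norm_num) (by norm_num : (0 : ℝ) ≤ 1)
  have h7 : g 0 = 0 := by
    refine D_zero hP (up_mem hψR (Rc_norm ?_)) hie (by simp)
    rw [norm_zero]; exact hR
  have h8 : g z = D i ψ := by
    show D i (Function.update ψ i (ψ i)) = D i ψ
    rw [Function.update_eq_self]
  simp only [hF, Complex.ofReal_one, one_mul, Complex.ofReal_zero, zero_mul, h7, h8,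
    Complex.zero_re, mul_zero, mul_one, add_zero] at h6
  linarith

end

end Pool.Agent.Y784.CBE
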